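import Pool.Agent.ASO.Stmts4
import Pool.Agent.ASO.StmtsH

/-! Squad ASO, row CPG: comparison of two groups. -/

open scoped BigOperators

noncomputable section

namespace Pool.Agent.PP.SO.H90

open Pool.Agent.Helper51_AWC Pool.Agent.Helper79_WRA Pool.Agent.PP Pool.Agent.PP.KF
open Pool.Agent.PP.K9 Pool.Agent.PP.K9.H97 Pool.Agent.PP.H75 Pool.Agent.PP.T3

attribute [local instance] Ideal.Quotient.field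

variable {ℓ : ℕ} [Fact ℓ.Prime] {M : Ideal (integralClosure ℤ ℂ)} [M.IsMaximal]

theorem rl_rm (hM : (ℓ : integralClosure ℤ ℂ) ∈ M) {q : ℚ} (h : q ∈ SOR.Rl ℓ) :
    ((q : ℚ) : ℂ) ∈ RM M := by
  have h1 : ¬ ℓ ∣ q.den := h
  have h2 := inv_nat_RM Fact.out hM h1
  have h3 : ((q : ℚ) : ℂ) = (q.num : ℂ) * (q.den : ℂ)⁻¹ := by
    rw [← div_eq_mul_inv]
    exact Rat.cast_def q
  rw [h3]
  exact mul_mem (rr_int (M := M) q.num).1 h2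

theorem exists_add {A : Type} [AddCommGroup A] (h : ∀ a : A, ℓ • a = 0) (a : A) (ha : a ≠ 0) :
    ∃ φ : A → ZMod ℓ, (∀ x y, φ (x + y) = φ x + φ y) ∧ φ a ≠ 0 := by
  let _ : Module (ZMod ℓ) A := AddCommGroup.zmodModule (n := ℓ) h
  obtain ⟨φ, hφ⟩ := Module.Projective.exists_dual_ne_zero (ZMod ℓ) ha
  exact ⟨fun v => φ v, fun v w => map_add φ v w, hφ⟩

/-- homomorphisms which do not vanish at a given element -/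
theorem exists_hm {V₀ : Type} [CommGroup V₀] (hex : ∀ v : V₀, v ^ ℓ = 1) (c : V₀) (hc : c ≠ 1) :
    ∃ ρ : V₀ → ZMod ℓ, Hm ρ ∧ ρ c ≠ 0 := by
  obtain ⟨φ, h1, h2⟩ := exists_add (ℓ := ℓ) (A := Additive V₀)
    (fun a => by
      show Additive.ofMul (a.toMul ^ ℓ) = 0
      rw [hex]
      rfl) (Additive.ofMul c) (fun h => hc (Additive.ofMul.injective h))
  exact ⟨fun v => φ (Additive.ofMul v), fun v w => h1 _ _, h2⟩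

theorem finsum_mem_RM {ι : Type} {s : Set ι} {f : ι → ℂ} (h : ∀ i ∈ s, f i ∈ RM M) :
    ∑ᶠ i ∈ s, f i ∈ RM M :=
  finsum_mem_induction (· ∈ RM M) (zero_mem _) (fun _ _ => add_mem) h

section main

variable {V₀ : Type} [CommGroup V₀]

/-- The index set of the automorphisms. -/
def ss (E₀ : Subgroup (MulAut V₀)) (c d : V₀) : Set (MulAut V₀) := {σ | σ ∈ E₀ ∧ c * σ d ≠ 1}

/-- The relation for a pair of systems. -/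
def Qs (ℓ : ℕ) [Fact ℓ.Prime] (M : Ideal (integralClosure ℤ ℂ)) [M.IsMaximal]
    (E₀ : Subgroup (MulAut V₀)) (n K : ℕ) (ρ₁ ρ₂ : V₀ → ZMod ℓ) (c d : V₀) (r₁ r₂ : ℤ) : Prop :=
  ∀ (G G' : Type) [Group G] [Finite G] [Group G'] [Finite G'] (B : Bk (FF M) V₀ G)
    (B' : Bk (FF M) V₀ G') (m m' : ℕ), Sy ℓ M E₀ B → Sy ℓ M E₀ B' → PE ℓ n m G → PE ℓ n m' G' →
    (∀ W, W ≠ ⊥ → ∃ q ∈ SOR.Rl ℓ, B.U W - B'.U W = ℓ ^ K * q) →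
    (r₁ * r₂ : ℂ) / ℓ ^ 2 * (L2 B c d - L2 B' c d) -
      ((∑ᶠ σ ∈ ss E₀ c d, ((cfL B.U ρ₁ ρ₂ c d σ : ℚ) : ℂ) / ℓ ^ 2 * L1 B (c * σ d)) -
        (∑ᶠ σ ∈ ss E₀ c d, ((cfL B'.U ρ₁ ρ₂ c d σ : ℚ) : ℂ) / ℓ ^ 2 * L1 B' (c * σ d))) ∈ RM M

theorem key [Finite V₀] {E₀ : Subgroup (MulAut V₀)} (hfin : FinStmt) (hrtx : RtxStmt)
    (hppc : PpcStmt) (hM : (ℓ : integralClosure ℤ ℂ) ∈ M) (h2 : ℓ ≠ 2) (hFr : Fr ℓ V₀ E₀) (n : ℕ)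
    (hn : ∃ r, 0 < r ∧ n = ℓ ^ r) (ρ₁ ρ₂ : V₀ → ZMod ℓ) (h1 : Hm ρ₁) (h2' : Hm ρ₂) (c d : V₀)
    (hc : c ≠ 1) (hd : d ≠ 1) (r₁ r₂ : ℤ) (e1 : (r₁ : ZMod ℓ) = - ρ₁ c)
    (e2 : (r₂ : ZMod ℓ) = - ρ₂ d) (z1 : ρ₁ c = 0 → r₁ = 0) (z2 : ρ₂ d = 0 → r₂ = 0) :
    ∃ K₀ : ℕ, ∀ K, K₀ ≤ K → Qs ℓ M E₀ n K ρ₁ ρ₂ c d r₁ r₂ := by
  obtain ⟨F₁₃, F₁₂, hFT, hRel⟩ := hrtx ℓ V₀ hFr.ex n ρ₁ ρ₂ hn h1 h2' c d r₁ r₂ e1 e2 z1 z2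
  obtain ⟨K₀, hK₀⟩ := hppc ℓ V₀ E₀ n c d F₁₃ F₁₂
  refine ⟨K₀, fun K hK G G' _ _ _ _ B B' m m' hB hB' hm hm' hU => ?_⟩
  have a := hfin ℓ M hM h2 V₀ G E₀ hFr B hB n m hm ρ₁ ρ₂ c d r₁ r₂ F₁₃ F₁₂ hc hd hFT
    (hRel G m B.i hB.inj hm)
  have a' := hfin ℓ M hM h2 V₀ G' E₀ hFr B' hB' n m' hm' ρ₁ ρ₂ c d r₁ r₂ F₁₃ F₁₂ hc hd hFT
    (hRel G' m' B'.i hB'.inj hm')
  have p := rl_rm hM (hK₀ K hK B.U B'.U hB.un hB'.un hU)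
  have e := sub_mem (sub_mem a a') p
  have e' : (r₁ * r₂ : ℂ) / ℓ ^ 2 * (L2 B c d - L2 B' c d) -
      ((∑ᶠ σ ∈ ss E₀ c d, ((cfL B.U ρ₁ ρ₂ c d σ : ℚ) : ℂ) / ℓ ^ 2 * L1 B (c * σ d)) -
        (∑ᶠ σ ∈ ss E₀ c d, ((cfL B'.U ρ₁ ρ₂ c d σ : ℚ) : ℂ) / ℓ ^ 2 * L1 B' (c * σ d))) =
      (r₁ * r₂ : ℂ) / ℓ ^ 2 * L2 B c d -
        (∑ᶠ σ ∈ ss E₀ c d, ((cfL B.U ρ₁ ρ₂ c d σ : ℚ) : ℂ) / ℓ ^ 2 * L1 B (c * σ d)) +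
        ((PPd E₀ B.U c d F₁₃ F₁₂ : ℚ) : ℂ) -
      ((r₁ * r₂ : ℂ) / ℓ ^ 2 * L2 B' c d -
        (∑ᶠ σ ∈ ss E₀ c d, ((cfL B'.U ρ₁ ρ₂ c d σ : ℚ) : ℂ) / ℓ ^ 2 * L1 B' (c * σ d)) +
        ((PPd E₀ B'.U c d F₁₃ F₁₂ : ℚ) : ℂ)) -
      ((PPd E₀ B.U c d F₁₃ F₁₂ - PPd E₀ B'.U c d F₁₃ F₁₂ : ℚ) : ℂ) := by
    push_cast
    ring
  rw [e']
  exact e

theorem all [Finite V₀] {E₀ : Subgroup (MulAut V₀)} (hfin : FinStmt) (hrtx : RtxStmt)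
    (hppc : PpcStmt) (hM : (ℓ : integralClosure ℤ ℂ) ∈ M) (h2 : ℓ ≠ 2) (hFr : Fr ℓ V₀ E₀) (n : ℕ)
    (hn : ∃ r, 0 < r ∧ n = ℓ ^ r) : ∃ K : ℕ, 2 ≤ K ∧ ∀ (ρ₁ ρ₂ : V₀ → ZMod ℓ) (c d : V₀) (b : Bool),
      Hm ρ₁ → Hm ρ₂ → c ≠ 1 → d ≠ 1 → (b = true → ρ₁ c ≠ 0) →
      Qs ℓ M E₀ n K ρ₁ ρ₂ c d (((-ρ₁ c).val : ℤ) + if b then (ℓ : ℤ) else 0) ((-ρ₂ d).val : ℤ) := by
  have h : ∀ i : (V₀ → ZMod ℓ) × (V₀ → ZMod ℓ) × V₀ × V₀ × Bool, ∃ K₀ : ℕ, ∀ K, K₀ ≤ K →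
      Hm i.1 → Hm i.2.1 → i.2.2.1 ≠ 1 → i.2.2.2.1 ≠ 1 → (i.2.2.2.2 = true → i.1 i.2.2.1 ≠ 0) →
      Qs ℓ M E₀ n K i.1 i.2.1 i.2.2.1 i.2.2.2.1
        (((-i.1 i.2.2.1).val : ℤ) + if i.2.2.2.2 then (ℓ : ℤ) else 0)
        ((-i.2.1 i.2.2.2.1).val : ℤ) := by
    rintro ⟨ρ₁, ρ₂, c, d, b⟩
    by_cases hh : Hm ρ₁ ∧ Hm ρ₂ ∧ c ≠ 1 ∧ d ≠ 1 ∧ (b = true → ρ₁ c ≠ 0)
    · obtain ⟨h1, h2', hc, hd, hb⟩ := hh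
      obtain ⟨K₀, hK₀⟩ := key (M := M) hfin hrtx hppc hM h2 hFr n hn ρ₁ ρ₂ h1 h2' c d hc hd
        (((-ρ₁ c).val : ℤ) + if b then (ℓ : ℤ) else 0) ((-ρ₂ d).val : ℤ)
        (by cases b <;> simp) (by simp)
        (fun h0 => by
          cases b with
          | false => simp [h0]
          | true => exact absurd h0 (hb rfl))
        (fun h0 => by simp [h0])
      exact ⟨K₀, fun K hK _ _ _ _ _ => hK₀ K hK⟩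
    · exact ⟨0, fun K _ a1 a2 a3 a4 a5 => absurd ⟨a1, a2, a3, a4, a5⟩ hh⟩
  choose f hf using h
  obtain ⟨N, hN⟩ := (Set.finite_range f).bddAbove
  refine ⟨N + 2, by omega, fun ρ₁ ρ₂ c d b h1 h2' hc hd hb => ?_⟩
  have := hN ⟨(ρ₁, ρ₂, c, d, b), rfl⟩
  exact hf (ρ₁, ρ₂, c, d, b) (N + 2) (by omega) h1 h2' hc hd hb

theorem ux_un {U : Subgroup V₀ → ℚ} (hU : ∀ W, W ≠ ⊥ → ∃ q ∈ SOR.Rl ℓ, U W = 1 + ℓ * q)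
    {W : Subgroup V₀} (hW : W ≠ ⊥) (x : V₀) : ∃ q ∈ SOR.Rl ℓ, ux U W x = 1 + ℓ * q := by
  unfold ux
  split_ifs
  · exact ⟨0, zero_mem _, by ring⟩
  · exact hU W hW

theorem ux_df {U U' : Subgroup V₀ → ℚ} {K : ℕ}
    (hU : ∀ W, W ≠ ⊥ → ∃ q ∈ SOR.Rl ℓ, U W - U' W = ℓ ^ K * q)
    {W : Subgroup V₀} (hW : W ≠ ⊥) (x : V₀) :
    ∃ q ∈ SOR.Rl ℓ, ux U W x - ux U' W x = ℓ ^ K * q := by
  unfold ux
  split_ifs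
  · exact ⟨0, zero_mem _, by ring⟩
  · exact hU W hW

theorem nat_rl (n : ℕ) : (n : ℚ) ∈ SOR.Rl ℓ := natCast_mem (SOR.Rl ℓ) n

theorem prod_un {u v : ℚ} (hu : ∃ q ∈ SOR.Rl ℓ, u = 1 + ℓ * q)
    (hv : ∃ q ∈ SOR.Rl ℓ, v = 1 + ℓ * q) : ∃ q ∈ SOR.Rl ℓ, u * v = 1 + ℓ * q := by
  obtain ⟨q, hq, rfl⟩ := hu
  obtain ⟨r, hr, rfl⟩ := hv
  refine ⟨q + r + ℓ * (q * r), add_mem (add_mem hq hr) (mul_mem (nat_rl ℓ) (mul_mem hq hr)), ?_⟩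
  ring

theorem prod_df {u v u' v' : ℚ} {K : ℕ} (hv : ∃ q ∈ SOR.Rl ℓ, v = 1 + ℓ * q)
    (hu' : ∃ q ∈ SOR.Rl ℓ, u' = 1 + ℓ * q) (h1 : ∃ q ∈ SOR.Rl ℓ, u - u' = ℓ ^ K * q)
    (h2 : ∃ q ∈ SOR.Rl ℓ, v - v' = ℓ ^ K * q) : ∃ q ∈ SOR.Rl ℓ, u * v - u' * v' = ℓ ^ K * q := by
  obtain ⟨q, hq, rfl⟩ := hv
  obtain ⟨r, hr, rfl⟩ := hu'
  obtain ⟨s, hs, h1⟩ := h1
  obtain ⟨t, ht, h2⟩ := h2
  have hq1 : 1 + ℓ * q ∈ SOR.Rl ℓ := add_mem (one_mem _) (mul_mem (nat_rl ℓ) hq)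
  have hr1 : 1 + ℓ * r ∈ SOR.Rl ℓ := add_mem (one_mem _) (mul_mem (nat_rl ℓ) hr)
  refine ⟨s * (1 + ℓ * q) + (1 + ℓ * r) * t, add_mem (mul_mem hs hq1) (mul_mem hr1 ht), ?_⟩
  calc u * (1 + ℓ * q) - (1 + ℓ * r) * v'
      = (u - (1 + ℓ * r)) * (1 + ℓ * q) + (1 + ℓ * r) * ((1 + ℓ * q) - v') := by ring
    _ = _ := by rw [h1, h2]; ring

theorem term (hM : (ℓ : integralClosure ℤ ℂ) ∈ M) {a : ℂ} (ha : a ∈ RM M) {u u' : ℚ} {K : ℕ}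
    (hK : 2 ≤ K) (hu : ∃ q ∈ SOR.Rl ℓ, u = 1 + ℓ * q)
    (hd : ∃ q ∈ SOR.Rl ℓ, u - u' = ℓ ^ K * q) {L L' : ℂ} (hL : (L - L') / ℓ ∈ RM M)
    (hL' : L' ∈ RM M) :
    a * (u : ℂ) / ℓ ^ 2 * L - a * (u' : ℂ) / ℓ ^ 2 * L' - a * (L - L') / ℓ ^ 2 ∈ RM M := by
  obtain ⟨q, hq, hu⟩ := hu
  obtain ⟨r, hr, hd⟩ := hd
  obtain ⟨k, rfl⟩ : ∃ k, K = 2 + k := ⟨K - 2, by omega⟩
  have hl : (ℓ : ℂ) ≠ 0 := by exact_mod_cast (Fact.out : ℓ.Prime).ne_zero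
  have hu1 : (u : ℂ) = 1 + ℓ * q := by rw [hu]; push_cast; ring
  have hu2 : (u' : ℂ) = (u : ℂ) - ℓ ^ (2 + k) * r := by
    have : u' = u - ℓ ^ (2 + k) * r := by rw [← hd]; ring
    rw [this]; push_cast; ring
  have e : a * (u : ℂ) / ℓ ^ 2 * L - a * (u' : ℂ) / ℓ ^ 2 * L' - a * (L - L') / ℓ ^ 2 =
      a * ((q : ℂ) * ((L - L') / ℓ) + ℓ ^ k * ((r : ℂ) * L')) := by
    rw [hu2, hu1, pow_add]
    field_simp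
    ring
  rw [e]
  exact mul_mem ha (add_mem (mul_mem (rl_rm hM hq) hL)
    (mul_mem (pow_mem (rr_nat (M := M) ℓ).1 k) (mul_mem (rl_rm hM hr) hL')))

theorem L1_RM [Finite V₀] {E₀ : Subgroup (MulAut V₀)} (homr : HOmrStmt)
    (hM : (ℓ : integralClosure ℤ ℂ) ∈ M) {G : Type} [Group G] [Finite G] {B : Bk (FF M) V₀ G}
    (hB : Sy ℓ M E₀ B) (c : V₀) : L1 B c ∈ RM M :=
  finsum_mem_RM fun χ hχ => (homr ℓ M hM V₀ E₀ G B hB.toSb c χ hχ).1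

theorem hm_inv {ρ : V₀ → ZMod ℓ} (h : Hm ρ) (v : V₀) : -ρ v⁻¹ = ρ v := by
  have h1 : ρ 1 = 0 := by
    have := h 1 1
    rw [mul_one] at this
    simpa using this
  have h2 := h v v⁻¹
  rw [mul_inv_cancel, h1] at h2
  exact neg_eq_of_add_eq_zero_left h2.symm

theorem hm_neg {ρ : V₀ → ZMod ℓ} (h : Hm ρ) : Hm fun v => -ρ v := fun v w => by
  show -ρ (v * w) = -ρ v + -ρ w
  rw [h v w]
  ring

theorem cfL_neg {ρ₁ ρ₂ : V₀ → ZMod ℓ} (h1 : Hm ρ₁) (h2 : Hm ρ₂) (U : Subgroup V₀ → ℚ) (c d : V₀)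
    (σ : MulAut V₀) : cfL U (fun v => -ρ₁ v) (fun v => -ρ₂ v) c d σ =
      (ρ₁ (c * σ d)).val * (ρ₂ (σ⁻¹ (c * σ d))).val *
        (ux U (Subgroup.zpowers (c * σ d)) c * ux U (Subgroup.zpowers (c * σ d)) (σ d)) := by
  unfold cfL
  simp only [hm_inv h1, hm_inv h2]

theorem cpg (hfin : FinStmt) (hrtx : RtxStmt) (hppc : PpcStmt) (homr : HOmrStmt) : CpgStmt := by
  intro ℓ _ M _ hM h2 V₀ _ _ E₀ hFr n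
  by_cases hn : ∃ r, 0 < r ∧ n = ℓ ^ r
  swap
  · exact ⟨0, fun G G' _ _ _ _ B B' m m' _ _ hm _ => absurd hm.pw hn⟩
  obtain ⟨K, hK2, hK⟩ := all (M := M) hfin hrtx hppc hM h2 hFr n hn
  refine ⟨K, fun G G' _ _ _ _ B B' m m' hB hB' hm hm' hU => ⟨fun c d hc hd => ?_,
    fun hL1 ρ₁ ρ₂ h1 h2' c d hc hd => ?_⟩⟩
  · obtain ⟨ρ₁, h1, h1c⟩ := exists_hm hFr.ex c hc
    obtain ⟨ρ₂, h2', h2d⟩ := exists_hm hFr.ex d hd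
    have a := hK ρ₁ ρ₂ c d true h1 h2' hc hd (fun _ => h1c) G G' B B' m m' hB hB' hm hm' hU
    have b := hK ρ₁ ρ₂ c d false h1 h2' hc hd (fun h => absurd h (by simp)) G G' B B' m m'
      hB hB' hm hm' hU
    have hl : (ℓ : ℂ) ≠ 0 := by exact_mod_cast (Fact.out : ℓ.Prime).ne_zero
    have hr : ¬ ℓ ∣ (-ρ₂ d).val := by
      intro h
      have h3 : ((-ρ₂ d).val : ZMod ℓ) = 0 := (ZMod.natCast_eq_zero_iff _ _).2 h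
      rw [ZMod.natCast_zmod_val] at h3
      exact h2d (neg_eq_zero.1 h3)
    have hr0 : ((-ρ₂ d).val : ℂ) ≠ 0 := by
      intro h
      apply hr
      have : (-ρ₂ d).val = 0 := by exact_mod_cast h
      rw [this]
      exact dvd_zero _
    have e := mul_mem (inv_nat_RM (M := M) Fact.out hM hr) (sub_mem a b)
    have e' : (L2 B c d - L2 B' c d) / ℓ = ((-ρ₂ d).val : ℂ)⁻¹ *
        ((((((-ρ₁ c).val : ℤ) + if true = true then (ℓ : ℤ) else 0 : ℤ) : ℂ) *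
          (((-ρ₂ d).val : ℤ) : ℂ)) / ℓ ^ 2 * (L2 B c d - L2 B' c d) -
        ((∑ᶠ σ ∈ ss E₀ c d, ((cfL B.U ρ₁ ρ₂ c d σ : ℚ) : ℂ) / ℓ ^ 2 * L1 B (c * σ d)) -
        (∑ᶠ σ ∈ ss E₀ c d, ((cfL B'.U ρ₁ ρ₂ c d σ : ℚ) : ℂ) / ℓ ^ 2 * L1 B' (c * σ d))) -
        ((((((-ρ₁ c).val : ℤ) + if false = true then (ℓ : ℤ) else 0 : ℤ) : ℂ) *
          (((-ρ₂ d).val : ℤ) : ℂ)) / ℓ ^ 2 * (L2 B c d - L2 B' c d) -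
        ((∑ᶠ σ ∈ ss E₀ c d, ((cfL B.U ρ₁ ρ₂ c d σ : ℚ) : ℂ) / ℓ ^ 2 * L1 B (c * σ d)) -
        (∑ᶠ σ ∈ ss E₀ c d, ((cfL B'.U ρ₁ ρ₂ c d σ : ℚ) : ℂ) / ℓ ^ 2 * L1 B' (c * σ d))))) := by
      simp only [if_true, if_neg Bool.false_ne_true, add_zero]
      push_cast
      field_simp
      ring
    rw [e']
    exact e
  · have a := hK (fun v => -ρ₁ v) (fun v => -ρ₂ v) c d false (hm_neg h1) (hm_neg h2') hc hd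
      (fun h => absurd h (by simp)) G G' B B' m m' hB hB' hm hm' hU
    have hfinA : Finite (MulAut V₀) :=
      Finite.of_injective (fun σ : MulAut V₀ => (σ : V₀ → V₀)) DFunLike.coe_injective
    have hS : (ss E₀ c d).Finite := Set.toFinite _
    simp only [cfL_neg h1 h2', neg_neg, if_neg Bool.false_ne_true, add_zero] at a
    rw [finsum_mem_eq_finite_toFinset_sum _ hS, finsum_mem_eq_finite_toFinset_sum _ hS] at a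
    have hb : ∑ σ ∈ hS.toFinset,
        ((((ρ₁ (c * σ d)).val : ℂ) * (ρ₂ (σ⁻¹ (c * σ d))).val) *
            ((ux B.U (Subgroup.zpowers (c * σ d)) c * ux B.U (Subgroup.zpowers (c * σ d)) (σ d) :
              ℚ) : ℂ) / ℓ ^ 2 * L1 B (c * σ d) -
          (((ρ₁ (c * σ d)).val : ℂ) * (ρ₂ (σ⁻¹ (c * σ d))).val) *
            ((ux B'.U (Subgroup.zpowers (c * σ d)) c * ux B'.U (Subgroup.zpowers (c * σ d)) (σ d) :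
              ℚ) : ℂ) / ℓ ^ 2 * L1 B' (c * σ d) -
          (((ρ₁ (c * σ d)).val : ℂ) * (ρ₂ (σ⁻¹ (c * σ d))).val) *
            (L1 B (c * σ d) - L1 B' (c * σ d)) / ℓ ^ 2) ∈ RM M := by
      refine sum_mem fun σ hσ => ?_
      have hκ : c * σ d ≠ 1 := ((Set.Finite.mem_toFinset hS).1 hσ).2
      have hW : Subgroup.zpowers (c * σ d) ≠ ⊥ := by
        rw [Ne, Subgroup.zpowers_eq_bot]
        exact hκ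
      exact term hM (mul_mem (rr_nat (M := M) _).1 (rr_nat (M := M) _).1) hK2
        (prod_un (ux_un hB.un hW _) (ux_un hB.un hW _))
        (prod_df (ux_un hB.un hW _) (ux_un hB'.un hW _) (ux_df hU hW _) (ux_df hU hW _))
        (hL1 _ hκ) (L1_RM homr hM hB' _)
    have e := add_mem a hb
    have hg : ∑ᶠ σ ∈ {σ : MulAut V₀ | σ ∈ E₀ ∧ c * σ d ≠ 1},
        ((ρ₁ (c * σ d)).val : ℂ) * (ρ₂ (σ⁻¹ (c * σ d))).val * (L1 B (c * σ d) - L1 B' (c * σ d)) =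
        ∑ σ ∈ hS.toFinset, ((ρ₁ (c * σ d)).val : ℂ) * (ρ₂ (σ⁻¹ (c * σ d))).val *
          (L1 B (c * σ d) - L1 B' (c * σ d)) := finsum_mem_eq_finite_toFinset_sum _ hS
    rw [hg]
    rw [Finset.sum_sub_distrib, Finset.sum_sub_distrib, ← Finset.sum_div] at e
    push_cast at e
    have e3 : ∀ X S S' Y : ℂ, X - (S - S') + (S - S' - Y) = X - Y := fun X S S' Y => by ring
    rw [e3] at e
    have e4 : ∀ X Y Z W : ℂ, (X * (Y * Z) - W) / (ℓ : ℂ) ^ 2 = Y * Z / (ℓ : ℂ) ^ 2 * X -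
        W / (ℓ : ℂ) ^ 2 := fun X Y Z W => by ring
    rw [e4]
    exact e

end main

end Pool.Agent.PP.SO.H90
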